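import Pool.Agent.R946.LF.A
import Pool.Agent.R946.LF.B1
import Pool.Agent.R946.LF.B2
import Pool.Agent.R946.LF.B3
import Pool.Agent.R946.LF.C
import Pool.Agent.R946.LF.D
import Pool.Agent.R946.LF.E
import Pool.Agent.R946.LF.F
import Pool.Agent.R946.LF.G
import Pool.Agent.R946.LF.H
import Pool.Agent.R946.LF.I
import Pool.Agent.R946.LF.J
import Pool.Agent.R946.LF.Asm
import Pool.Agent.R946.LF.Lam

/-!
# Negative answer to Q1 of MP_dd3681_pr

There is a finite measure `Λ` in the intensive regime with dust and with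
`-∫_{[0,1)} u log u ν(du) = ∞`, for which with positive probability the initial type of the
second level (level `1` in the numbering from `0`) never gets a positive frequency.
-/

namespace Pool.Agent.Results.MP_dd3681_pr.TypeNeverPositive

open MeasureTheory ProbabilityTheory Filter Pool.Agent.R946.LF
open scoped Topology

theorem result :
    ∃ (L : Measure ℝ) (c v : ℕ → ℝ), DustRegime L ∧ NoULogU L ∧
      (∀ k, 0 < c k) ∧ (∀ k, 0 < v k ∧ v k < 1) ∧ Function.Injective v ∧
      nuOf L = atomic c v ∧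
      (∃ (Ω : Type) (_ : MeasurableSpace Ω) (P : Measure Ω) (_ : IsProbabilityMeasure P),
        Nonempty (Noise c v P)) ∧
      ∀ (Ω : Type) [MeasurableSpace Ω] (P : Measure Ω) [IsProbabilityMeasure P]
        (Z : Noise c v P),
        (∀ᵐ ω ∂P, Function.Injective (Z.U ω) ∧
          ∀ (t : ℝ) (x : ℕ), ∃! y, Anc (Z.W ω) t x y) ∧
        ∃ E : Set Ω, MeasurableSet E ∧ 0 < P E ∧ ∀ ω ∈ E, ∀ t : ℝ,
          Tendsto (fun n : ℕ => (cnt (Z.W ω) (Z.U ω) t 1 n : ℝ) / n) atTop (𝓝 0) := by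
  have hA := stmA
  have hB1 := stmB1 hA
  obtain ⟨c, v, hc, hv, hinj, h1, h2, h3, hex, hmain⟩ := main hB1 (stmB2 hA hB1) (stmB3 hA)
    stmC stmD stmE stmF stmG stmH stmI stmJ
  obtain ⟨hr, hn⟩ := regime_atomic c v hc hv h1 h2 h3
  exact ⟨atomic (fun k => c k * v k ^ 2) v, c, v, hr, hn, hc, hv, hinj,
    nuOf_atomic c v hc hv, hex, hmain⟩

end Pool.Agent.Results.MP_dd3681_pr.TypeNeverPositive
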